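import Pool.Agent.Y462.GE.Stm

/-!
# Project GE: the amalgamated product embeds in the matrices
-/

set_option autoImplicit false
set_option linter.all false

namespace Pool.Agent.Y833.GE

open Pool.Agent.Y462.PA (Am)
open Pool.Agent.Y462.GE

/-- The corrected statement (for the zero ring the amalgamated product is not trivial in
general). -/
def S_INJ' : Prop := ∀ (k R : Type) [Field k] [Ring R] [Nontrivial R] [Algebra k R]
  (deg : R → WithBot ℕ), IsDeg k R deg → ∃ j : GAm k R →* U2 R, Function.Injective j ∧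
    (∀ g, j (Am.inl _ _ g) = sc k R g) ∧ ∀ g, j (Am.inr _ _ g) = mt k R g

section act

variable (R : Type) [Ring R]

/-- The action of the matrices on the pairs. -/
def act : U2 R →* Equiv.Perm (Fin 2 → R) where
  toFun M :=
    { toFun := fun v => (M : Matrix (Fin 2) (Fin 2) R).mulVec v
      invFun := fun v => ((M⁻¹ : U2 R) : Matrix (Fin 2) (Fin 2) R).mulVec v
      left_inv := fun v => by
        show ((M⁻¹ : U2 R) : Matrix (Fin 2) (Fin 2) R).mulVec
          ((M : Matrix (Fin 2) (Fin 2) R).mulVec v) = v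
        rw [Matrix.mulVec_mulVec, Units.inv_mul, Matrix.one_mulVec]
      right_inv := fun v => by
        show (M : Matrix (Fin 2) (Fin 2) R).mulVec
          (((M⁻¹ : U2 R) : Matrix (Fin 2) (Fin 2) R).mulVec v) = v
        rw [Matrix.mulVec_mulVec, Units.mul_inv, Matrix.one_mulVec] }
  map_one' := Equiv.ext fun v => by
    show ((1 : U2 R) : Matrix (Fin 2) (Fin 2) R).mulVec v = v
    rw [Units.val_one, Matrix.one_mulVec]
  map_mul' M N := Equiv.ext fun v => by
    show ((M * N : U2 R) : Matrix (Fin 2) (Fin 2) R).mulVec v =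
      (M : Matrix (Fin 2) (Fin 2) R).mulVec ((N : Matrix (Fin 2) (Fin 2) R).mulVec v)
    rw [Units.val_mul, Matrix.mulVec_mulVec]

theorem act_apply (M : U2 R) (v : Fin 2 → R) (i : Fin 2) : act R M v i =
    (M : Matrix (Fin 2) (Fin 2) R) i 0 * v 0 + (M : Matrix (Fin 2) (Fin 2) R) i 1 * v 1 := by
  show (M : Matrix (Fin 2) (Fin 2) R).mulVec v i = _
  rw [Matrix.mulVec, dotProduct, Fin.sum_univ_two]

end act

section deg

variable {k R : Type} [Field k] [Ring R] [Nontrivial R] [Algebra k R] {deg : R → WithBot ℕ}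

theorem alg_ne {c : k} (hc : c ≠ 0) : algebraMap k R c ≠ 0 :=
  (map_ne_zero_iff _ (algebraMap k R).injective).2 hc

variable (h : IsDeg k R deg)
include h

theorem deg_zero : deg 0 = ⊥ := (h.zero 0).2 rfl

theorem deg_alg {c : k} (hc : c ≠ 0) : deg (algebraMap k R c) = 0 := by
  have h1 : deg (algebraMap k R c) ≤ 0 := (h.const _).2 ⟨c, rfl⟩
  have h2 : deg (algebraMap k R c) ≠ ⊥ := fun h0 => alg_ne hc ((h.zero _).1 h0)
  obtain ⟨n, hn⟩ := WithBot.ne_bot_iff_exists.1 h2
  rw [← hn] at h1 ⊢
  have h3 : n ≤ 0 := WithBot.coe_le_coe.1 (h1 : (n : WithBot ℕ) ≤ ((0 : ℕ) : WithBot ℕ))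
  have h4 : n = 0 := by omega
  rw [h4]
  rfl

theorem deg_cmul {c : k} (hc : c ≠ 0) (x : R) : deg (algebraMap k R c * x) = deg x := by
  rw [h.mul, deg_alg h hc, zero_add]

theorem deg_cle (c : k) (x : R) : deg (algebraMap k R c * x) ≤ deg x := by
  by_cases hc : c = 0
  · rw [hc, map_zero, zero_mul, deg_zero h]
    exact bot_le
  · exact (deg_cmul h hc x).le

theorem deg_neg (x : R) : deg (-x) = deg x := by
  have h1 := deg_cmul h (neg_ne_zero.2 (one_ne_zero (α := k))) x
  rwa [map_neg, map_one, neg_one_mul] at h1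

theorem deg_add_eq {x y : R} (hxy : deg y < deg x) : deg (x + y) = deg x := by
  refine le_antisymm ((h.add x y).trans (max_le le_rfl hxy.le)) ?_
  have h1 : deg ((x + y) + -y) ≤ max (deg (x + y)) (deg (-y)) := h.add _ _
  rw [add_neg_cancel_right, deg_neg h] at h1
  rcases le_max_iff.1 h1 with h2 | h2
  · exact h2
  · exact absurd hxy (not_lt.2 h2)

end deg

theorem lt_add_of {w x : WithBot ℕ} (hw : 0 < w) (hx : x ≠ ⊥) : x < w + x := by
  obtain ⟨n, rfl⟩ := WithBot.ne_bot_iff_exists.1 hx
  have hw0 : w ≠ ⊥ := by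
    rintro rfl
    exact not_lt_bot hw
  obtain ⟨m, rfl⟩ := WithBot.ne_bot_iff_exists.1 hw0
  have h1 : 0 < m := WithBot.coe_lt_coe.1 (hw : ((0 : ℕ) : WithBot ℕ) < (m : WithBot ℕ))
  have h2 : n < m + n := by omega
  rw [← WithBot.coe_add]
  exact WithBot.coe_lt_coe.2 h2

theorem t_inj (hPP : S_PP) : S_INJ' := by
  intro k R _ _ _ _ deg h
  have hcompat : ∀ c : Bo k k, sc k R (Pool.Agent.Y462.GE.mt k k c) =
      Pool.Agent.Y462.GE.mt k R (Bo.map (k := k) (Algebra.linearMap k R) c) := by
    intro c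
    apply Units.ext
    ext i j
    fin_cases i <;> fin_cases j <;> simp [sc, Pool.Agent.Y462.GE.mt, Bo.map]
  let j : GAm k R →* U2 R := Am.lift _ _ (sc k R) (Pool.Agent.Y462.GE.mt k R) hcompat
  have jl : ∀ g, j (Am.inl _ _ g) = sc k R g := fun g => Am.lift_inl _ _ _ _ _ g
  have jr : ∀ g, j (Am.inr _ _ g) = Pool.Agent.Y462.GE.mt k R g := fun g => Am.lift_inr _ _ _ _ _ g
  refine ⟨j, ?_, jl, jr⟩
  have al : ∀ (g : U2 k) (v : Fin 2 → R) (i : Fin 2), (act R).comp j (Am.inl _ _ g) v i =
      algebraMap k R ((g : Matrix (Fin 2) (Fin 2) k) i 0) * v 0 +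
        algebraMap k R ((g : Matrix (Fin 2) (Fin 2) k) i 1) * v 1 := by
    intro g v i
    rw [MonoidHom.comp_apply, jl, act_apply]
    rfl
  have ar : ∀ (g : Bo k R) (v : Fin 2 → R),
      (act R).comp j (Am.inr _ _ g) v 0 = algebraMap k R g.a * v 0 + g.v * v 1 ∧
      (act R).comp j (Am.inr _ _ g) v 1 = algebraMap k R g.d * v 1 := by
    intro g v
    rw [MonoidHom.comp_apply, jr, act_apply, act_apply]
    refine ⟨rfl, ?_⟩
    show (0 : R) * v 0 + _ = _
    rw [zero_mul, zero_add]
    rfl
  have ac : ∀ (c : Bo k k) (v : Fin 2 → R),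
      (act R).comp j (Am.inl _ _ (Pool.Agent.Y462.GE.mt k k c)) v 0 =
        algebraMap k R c.a * v 0 + algebraMap k R c.v * v 1 ∧
      (act R).comp j (Am.inl _ _ (Pool.Agent.Y462.GE.mt k k c)) v 1 = algebraMap k R c.d * v 1 := by
    intro c v
    rw [al, al]
    refine ⟨rfl, ?_⟩
    show algebraMap k R 0 * v 0 + _ = _
    rw [map_zero, zero_mul, zero_add]
    rfl
  have hf : Function.Injective ((act R).comp j) := by
    refine hPP _ _ _ _ _ _ ((act R).comp j) {v | v 1 ≠ 0 ∧ deg (v 0) ≤ deg (v 1)}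
      {v | deg (v 1) < deg (v 0)} (fun v => max (deg (v 0)) (deg (v 1))) ?_ ?_ ?_ ?_ ?_ ?_ ?_ ?_
    · rw [Set.disjoint_left]
      intro v h1 h2
      exact not_lt.2 h1.2 h2
    · refine ⟨![0, 1], ?_, ?_⟩
      · exact one_ne_zero
      · show deg 0 ≤ _
        rw [deg_zero h]
        exact bot_le
    · refine ⟨![1, 0], ?_⟩
      show deg 0 < deg 1
      have h1 := deg_alg h (one_ne_zero (α := k))
      rw [map_one] at h1
      rw [deg_zero h, h1]
      exact WithBot.bot_lt_coe 0
    · -- the first factor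
      intro a ha v hv
      have hv' : deg (v 1) < deg (v 0) := hv
      have hr : (a : Matrix (Fin 2) (Fin 2) k) 1 0 ≠ 0 := by
        intro hr
        apply ha
        have hdet : IsUnit (a : Matrix (Fin 2) (Fin 2) k).det :=
          (Matrix.isUnit_iff_isUnit_det _).1 a.isUnit
        rw [Matrix.det_fin_two, hr, mul_zero, sub_zero, isUnit_iff_ne_zero] at hdet
        refine ⟨⟨Units.mk0 _ (left_ne_zero_of_mul hdet), Units.mk0 _ (right_ne_zero_of_mul hdet),
          (a : Matrix (Fin 2) (Fin 2) k) 0 1⟩, ?_⟩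
        apply Units.ext
        ext i j
        fin_cases i <;> fin_cases j
        · rfl
        · rfl
        · exact hr.symm
        · rfl
      have e1 : deg ((act R).comp j (Am.inl _ _ a) v 1) = deg (v 0) := by
        rw [al]
        have h1 := deg_cmul h hr (v 0)
        rw [deg_add_eq h (by rw [h1]; exact (deg_cle h _ _).trans_lt hv'), h1]
      have e0 : deg ((act R).comp j (Am.inl _ _ a) v 0) ≤ deg (v 0) := by
        rw [al]
        exact (h.add _ _).trans (max_le (deg_cle h _ _) ((deg_cle h _ _).trans hv'.le))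
      refine ⟨⟨?_, ?_⟩, ?_⟩
      · intro h0
        rw [h0, deg_zero h] at e1
        rw [← e1] at hv'
        exact not_lt_bot hv'
      · rw [e1]
        exact e0
      · show max (deg (v 0)) (deg (v 1)) ≤ max (deg _) (deg _)
        rw [e1]
        exact max_le (le_max_right _ _) (hv'.le.trans (le_max_right _ _))
    · -- the second factor
      intro b hb v hv
      obtain ⟨hv1, hv2⟩ : v 1 ≠ 0 ∧ deg (v 0) ≤ deg (v 1) := hv
      obtain ⟨a0, a1⟩ := ar b v
      have hw : 0 < deg b.v := by
        by_contra hcon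
        obtain ⟨c, hc⟩ := (h.const _).1 (not_lt.1 hcon)
        apply hb
        refine ⟨⟨b.a, b.d, c⟩, ?_⟩
        ext
        · rfl
        · rfl
        · exact hc.symm
      have hd1 : deg (v 1) ≠ ⊥ := fun h0 => hv1 ((h.zero _).1 h0)
      have hlt : deg (v 1) < deg b.v + deg (v 1) := lt_add_of hw hd1
      have e0 : deg ((act R).comp j (Am.inr _ _ b) v 0) = deg b.v + deg (v 1) := by
        have hm : deg (b.v * v 1) = deg b.v + deg (v 1) := h.mul _ _
        rw [a0, add_comm, ← hm]
        refine deg_add_eq h ?_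
        rw [hm]
        exact ((deg_cle h _ _).trans hv2).trans_lt hlt
      have e1 : deg ((act R).comp j (Am.inr _ _ b) v 1) = deg (v 1) := by
        rw [a1, deg_cmul h (Units.ne_zero _)]
      refine ⟨?_, ?_⟩
      · show deg _ < deg _
        rw [e0, e1]
        exact hlt
      · show max (deg (v 0)) (deg (v 1)) < max (deg _) (deg _)
        rw [e0, e1, max_eq_right hv2, max_eq_left hlt.le]
        exact hlt
    · -- the common subgroup, first set
      intro c v hv
      obtain ⟨hv1, hv2⟩ : v 1 ≠ 0 ∧ deg (v 0) ≤ deg (v 1) := hv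
      obtain ⟨a0, a1⟩ := ac c v
      have e1 : deg ((act R).comp j (Am.inl _ _ (Pool.Agent.Y462.GE.mt k k c)) v 1) = deg (v 1) := by
        rw [a1, deg_cmul h (Units.ne_zero _)]
      have e0 : deg ((act R).comp j (Am.inl _ _ (Pool.Agent.Y462.GE.mt k k c)) v 0) ≤ deg (v 1) := by
        rw [a0]
        exact (h.add _ _).trans (max_le ((deg_cle h _ _).trans hv2) (deg_cle h _ _))
      refine ⟨⟨?_, ?_⟩, ?_⟩
      · intro h0
        rw [h0, deg_zero h] at e1
        exact hv1 ((h.zero _).1 e1.symm)
      · rw [e1]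
        exact e0
      · show max (deg _) (deg _) = max (deg (v 0)) (deg (v 1))
        rw [e1, max_eq_right hv2, max_eq_right e0]
    · -- the common subgroup, second set
      intro c v hv
      have hv' : deg (v 1) < deg (v 0) := hv
      obtain ⟨a0, a1⟩ := ac c v
      have e1 : deg ((act R).comp j (Am.inl _ _ (Pool.Agent.Y462.GE.mt k k c)) v 1) = deg (v 1) := by
        rw [a1, deg_cmul h (Units.ne_zero _)]
      have e0 : deg ((act R).comp j (Am.inl _ _ (Pool.Agent.Y462.GE.mt k k c)) v 0) = deg (v 0) := by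
        have h1 := deg_cmul h (Units.ne_zero c.a) (v 0)
        rw [a0, deg_add_eq h (by rw [h1]; exact (deg_cle h _ _).trans_lt hv'), h1]
      refine ⟨?_, ?_⟩
      · show deg _ < deg _
        rw [e0, e1]
        exact hv'
      · show max (deg _) (deg _) = max (deg (v 0)) (deg (v 1))
        rw [e1, e0]
    · -- faithfulness
      intro c hc
      have hinj := (algebraMap k R).injective
      obtain ⟨a0, -⟩ := ac c ![1, 0]
      obtain ⟨b0, b1⟩ := ac c ![0, 1]
      rw [hc] at a0 b0 b1
      have p1 : (1 : R) = algebraMap k R c.a := by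
        have : (1 : R) = algebraMap k R c.a * 1 + algebraMap k R c.v * 0 := a0
        rwa [mul_one, mul_zero, add_zero] at this
      have p2 : (0 : R) = algebraMap k R c.v := by
        have : (0 : R) = algebraMap k R c.a * 0 + algebraMap k R c.v * 1 := b0
        rwa [mul_one, mul_zero, zero_add] at this
      have p3 : (1 : R) = algebraMap k R c.d := by
        have : (1 : R) = algebraMap k R c.d * 1 := b1
        rwa [mul_one] at this
      ext
      · rw [← map_one (algebraMap k R)] at p1
        exact (hinj p1).symm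
      · rw [← map_one (algebraMap k R)] at p3
        exact (hinj p3).symm
      · rw [← map_zero (algebraMap k R)] at p2
        exact (hinj p2).symm
  have hf' : Function.Injective (act R ∘ j) := hf
  exact hf'.of_comp

end Pool.Agent.Y833.GE
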